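import Pool.Agent.Q186.SD.Main
import Pool.Agent.Q186.SD.TaskAnn
import Pool.Agent.Q186.SD.TaskFlat

set_option autoImplicit false

/-!
# The strong diameter two property of spaces of Lipschitz maps

If the metric space `M` is unbounded or not uniformly discrete then, for every real normed space
`Y`, every convex combination of slices of the unit ball of `Lip(M, Y)` has diameter `2`.

Proof. For every `λ > 1` the space `M` has infinitely many pairwise disjoint annuli
`s_n / λ < d(x, c_n) < λ s_n`, `s_n = d(c_n, z_n)`. If `f` is `1`-Lipschitz then so is, up to a factor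
`1 + δ`, the map `f(c_n) + θ_n (f - f(c_n)) ± h_n e`, where `θ_n` is a cutoff which varies slowly
with `log d(x, c_n)` and vanishes on a neighbourhood (in the logarithmic scale) of the support of the
bump `h_n` around `z_n`. The differences to `f` have disjoint supports and are uniformly Lipschitz, so
they tend weakly to zero. Hence the same `± h_n e` may be added in all slices at once.
-/

namespace Pool.Agent.Results.MP_6460d9_an.StrongDiameterTwo

open Set

universe u v

/-- the space of the Lipschitz maps `f : M → Y` with `f o = 0` -/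
def Lip (M : Type u) [MetricSpace M] (Y : Type v) [NormedAddCommGroup Y] [NormedSpace ℝ Y]
    (o : M) : Submodule ℝ (M → Y) := Pool.Agent.Q186.SD.LipS M Y o

theorem mem_Lip {M : Type u} [MetricSpace M] {Y : Type v} [NormedAddCommGroup Y] [NormedSpace ℝ Y]
    {o : M} {f : M → Y} :
    f ∈ Lip M Y o ↔ f o = 0 ∧ ∃ C : ℝ, ∀ x y, ‖f x - f y‖ ≤ C * dist x y := Iff.rfl

variable {M : Type u} [MetricSpace M] {Y : Type v} [NormedAddCommGroup Y] [NormedSpace ℝ Y] {o : M}

/-- the norm `sup ‖f x - f y‖ / d(x, y)` over `x ≠ y` -/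
noncomputable def lipNorm (f : Lip M Y o) : ℝ :=
  sSup {r | ∃ x y : M, x ≠ y ∧ r = ‖(f : M → Y) x - (f : M → Y) y‖ / dist x y}

/-- `φ` is a linear functional of norm one on the normed space `Lip(M, Y)` -/
def NormOne (φ : Lip M Y o →ₗ[ℝ] ℝ) : Prop :=
  (∀ f, |φ f| ≤ lipNorm f) ∧ ∀ ε > 0, ∃ f, lipNorm f ≤ 1 ∧ 1 - ε < φ f

/-- the slice `S(B, φ, α)` of the closed unit ball of `Lip(M, Y)` -/
def slice (φ : Lip M Y o →ₗ[ℝ] ℝ) (α : ℝ) : Set (Lip M Y o) :=
  {f | lipNorm f ≤ 1 ∧ 1 - α < φ f}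

/-- the convex combination `∑ λ_i S_i` -/
def comb {n : ℕ} (l : Fin n → ℝ) (S : Fin n → Set (Lip M Y o)) : Set (Lip M Y o) :=
  {a | ∃ g : Fin n → Lip M Y o, (∀ i, g i ∈ S i) ∧ a = ∑ i, l i • g i}

/-- the diameter of a set in the normed space `Lip(M, Y)` -/
noncomputable def diameter (C : Set (Lip M Y o)) : ℝ :=
  sSup {r | ∃ a ∈ C, ∃ b ∈ C, r = lipNorm (a - b)}

/-- the strong diameter two property of `Lip(M, Y)` -/
def SD2P (M : Type u) [MetricSpace M] (Y : Type v) [NormedAddCommGroup Y] [NormedSpace ℝ Y]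
    (o : M) : Prop :=
  ∀ (n : ℕ), 0 < n → ∀ l : Fin n → ℝ, (∀ i, 0 < l i) → ∑ i, l i = 1 →
    ∀ φ : Fin n → (Lip M Y o →ₗ[ℝ] ℝ), (∀ i, NormOne (φ i)) → ∀ α : Fin n → ℝ, (∀ i, 0 < α i) →
      diameter (comb l (fun i => slice (φ i) (α i))) = 2

theorem result : ∀ (M : Type u) [MetricSpace M] (o : M)
    (Y : Type v) [NormedAddCommGroup Y] [NormedSpace ℝ Y],
    (¬ Bornology.IsBounded (univ : Set M) ∨ ¬ ∃ r > 0, ∀ x y : M, x ≠ y → r ≤ dist x y) →
    SD2P M Y o := by
  intro M _ o Y _ _ hM n hn l hl hl1 φ hφ α hα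
  refine Pool.Agent.Q186.SD.final Pool.Agent.Q186.SD.taskAnn Pool.Agent.Q186.SD.taskFlat o ?_ hn l
    hl hl1 φ hφ α hα
  rcases hM with h | h
  · left
    intro R
    by_contra hR
    push Not at hR
    exact h (Metric.isBounded_iff.2 ⟨R, fun x _ y _ => hR x y⟩)
  · right
    intro ε hε
    by_contra hR
    push Not at hR
    exact h ⟨ε, hε, hR⟩

end Pool.Agent.Results.MP_6460d9_an.StrongDiameterTwo
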